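import Pool.Agent.Lib.MP_be4430_lc.Main

/-!
# The grid version of the upward planar slope number problem is `∃ℚ`-complete

Full positive answer to Q1.  `GRID` is the problem (a directed graph and a number `k` in binary; is
there an upward planar straight-line drawing with vertices in `ℤ²` and at most `k` slopes?), `ETQ`
the existential theory of the rationals; reductions are polynomial-time many-one reductions.
-/

namespace Pool.Agent.Results.MP_be4430_lc.GridSlopeComplete

open Pool.Agent.Lib.MP_be4430_lc

theorem result : ExistsQComplete GRID := grid_complete

end Pool.Agent.Results.MP_be4430_lc.GridSlopeComplete
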